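import Pool.Agent.H756.GN.Asm0
import Pool.Agent.U891.GN.FLIP
import Pool.Agent.U99.GN.LIFT
import Pool.Agent.U165.GN.VAR
import Pool.Agent.U139.GN.HYPW

/-! Project GN: assembly. -/

set_option autoImplicit false

namespace Pool.Agent.H756.GN

open MeasureTheory Set
open scoped InnerProductSpace
open Pool.Agent.W695.KH (Eu EV VV sec PerLe)

theorem main : ∃ C : ℝ, 0 < C ∧ ∀ (n : ℕ), 1 ≤ n →
    ∀ G : Fin n → Fin n → Prop, ∃ a : Eu (Fin n), a ≠ 0 ∧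
    ∀ E : Set (Eu (Fin n)), MeasurableSet E → E ⊆ Om G → volume E = volume (Om G) / 2 →
    ∀ P : ℝ, PerLe (Om G) E P → sec (Om G) a ≤ ENNReal.ofReal (C * P) :=
  gn (Pool.Agent.U99.GN.t_LIFT Pool.Agent.U891.GN.t_FLIP) Pool.Agent.U165.GN.t_VAR
    Pool.Agent.U139.GN.t_HYPW

end Pool.Agent.H756.GN
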