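import Pool.Agent.H756.GN.Stm
import Pool.Agent.H756.SB.Asm
import Pool.Agent.R711.POBE

/-!
# Project GN: from the packages to the bodies of graph norms
-/

set_option autoImplicit false

namespace Pool.Agent.H756.GN

open MeasureTheory Set Filter Topology
open scoped ENNReal InnerProductSpace Pointwise
open Pool.Agent.W695.KH (Eu EV VV sec PerLe)
open Pool.Agent.R972.OP (pd)
open Pool.Agent.U959.OC (en Glo en_cont)
open Pool.Agent.H756.SB (OPs xs)

variable {n : ℕ}

/-- the relation of the positive part -/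
def Sg (G : Fin n → Fin n → Prop) (u v : Fin n × Bool) : Prop :=
  u.2 = false ∧ v.2 = true ∧ G u.1 v.1

theorem Kg_closed (G : Fin n → Fin n → Prop) : IsClosed (Kg G) := by
  have h : Kg G = (⋂ i, {x : Fin n → ℝ | |x i| ≤ 1}) ∩
      ⋂ i, ⋂ j, ⋂ (_ : G i j), {x : Fin n → ℝ | |x i| + |x j| ≤ 1} := by
    ext x; simp only [Kg, mem_ofPred_eq, mem_inter_iff, mem_iInter]
  rw [h]
  exact (isClosed_iInter fun i => isClosed_le (by fun_prop) continuous_const).inter
    (isClosed_iInter fun i => isClosed_iInter fun j => isClosed_iInter fun _ =>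
      isClosed_le (by fun_prop) continuous_const)

theorem Kg_unc (G : Fin n → Fin n → Prop) : Unc (Kg G) := by
  refine ⟨?_, fun x hx i => hx.1 i, fun x hx y hy => ⟨fun i => (hy i).trans (hx.1 i),
    fun i j hij => (add_le_add (hy i) (hy j)).trans (hx.2 i j hij)⟩⟩
  refine IsCompact.of_isClosed_subset (isCompact_univ_pi fun _ : Fin n =>
    isCompact_Icc (a := (-1 : ℝ)) (b := 1)) (Kg_closed G) ?_
  intro x hx
  rw [mem_univ_pi]
  exact fun i => abs_le.1 (hx.1 i)

theorem pos_Kg (G : Fin n → Fin n → Prop) : pos (Kg G) = OPs (Sg G) := by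
  ext x
  constructor
  · rintro ⟨⟨h1, h2⟩, h3⟩
    refine ⟨fun i => ⟨h3 i, (le_abs_self _).trans (h1 i)⟩, ?_⟩
    rintro ⟨i, s⟩ ⟨j, t⟩ ⟨hs, ht, hij⟩
    simp only at hs ht hij
    subst hs
    subst ht
    have := h2 i j hij
    rw [abs_of_nonneg (h3 i), abs_of_nonneg (h3 j)] at this
    show x i ≤ 1 - x j
    linarith
  · rintro ⟨h1, h2⟩
    refine ⟨⟨fun i => by rw [abs_of_nonneg (h1 i).1]; exact (h1 i).2, fun i j hij => ?_⟩,
      fun i => (h1 i).1⟩
    rw [abs_of_nonneg (h1 i).1, abs_of_nonneg (h1 j).1]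
    have : x i ≤ 1 - x j := h2 (i, false) (j, true) ⟨rfl, rfl, hij⟩
    linarith

theorem poi_pos (G : Fin n → Fin n → Prop) (f : (Fin n → ℝ) → ℝ) (hf : ContDiff ℝ 1 f) :
    (volume (pos (Kg G))).toReal * (∫ x in pos (Kg G), f x ^ 2) - (∫ x in pos (Kg G), f x) ^ 2 ≤
      (volume (pos (Kg G))).toReal * (1 / 4 * ∫ x in pos (Kg G), en f x) := by
  have h := Pool.Agent.H756.SB.poi n (Sg G) (fun u hu => by
    have := hu.1.symm.trans hu.2.1
    exact absurd this (by decide)) f hf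
  rw [pos_Kg]
  refine h.trans (mul_le_mul_of_nonneg_left ?_ ENNReal.toReal_nonneg)
  have hcl : IsClosed (OPs (Sg G)) := by
    rw [← pos_Kg]
    have : pos (Kg G) = Kg G ∩ ⋂ i, {x : Fin n → ℝ | 0 ≤ x i} := by
      ext x; simp only [pos, mem_ofPred_eq, mem_inter_iff, mem_iInter]
    rw [this]
    exact (Kg_closed G).inter (isClosed_iInter fun i =>
      isClosed_le continuous_const (continuous_apply i))
  have hcp : IsCompact (OPs (Sg G)) := by
    refine IsCompact.of_isClosed_subset (isCompact_univ_pi fun _ : Fin n =>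
      isCompact_Icc (a := (0 : ℝ)) (b := 1)) hcl ?_
    intro x hx
    rw [mem_univ_pi]
    exact hx.1
  have hcpd : ∀ a, Continuous (pd f a) := by
    intro a
    unfold pd
    exact (hf.continuous_fderiv one_ne_zero).clm_apply continuous_const
  have hcG : Continuous (Glo f) := by
    unfold Glo
    refine continuous_finsetSum _ fun a _ => ?_
    exact (continuous_const.mul (((continuous_apply a).mul
      (continuous_const.sub (continuous_apply a))).pow 2)).mul ((hcpd a).pow 2)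
  have h1 : ∫ x in OPs (Sg G), Glo f x ≤ ∫ x in OPs (Sg G), 1 / 2 * en f x := by
    refine setIntegral_mono_on (hcG.continuousOn.integrableOn_compact hcp)
      ((continuous_const.mul (en_cont hf)).continuousOn.integrableOn_compact hcp)
      hcp.isClosed.measurableSet fun x hx => ?_
    unfold Glo en
    rw [Finset.mul_sum]
    refine Finset.sum_le_sum fun a _ => ?_
    obtain ⟨h0, h1⟩ := hx.1 a
    have h2 : x a * (1 - x a) ≤ 1 / 4 := by nlinarith [sq_nonneg (x a - 1 / 2)]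
    have h3 : 0 ≤ x a * (1 - x a) := mul_nonneg h0 (by linarith)
    have h4 : (x a * (1 - x a)) ^ 2 ≤ (1 / 4) ^ 2 := pow_le_pow_left₀ h3 h2 2
    have h5 : 8 * (x a * (1 - x a)) ^ 2 ≤ 1 / 2 := by
      have : ((1 : ℝ) / 4) ^ 2 = 1 / 16 := by norm_num
      rw [this] at h4
      linarith
    exact mul_le_mul_of_nonneg_right h5 (sq_nonneg _)
  rw [integral_const_mul] at h1
  linarith

/-- the open body -/
def Om (G : Fin n → Fin n → Prop) : Set (Eu (Fin n)) :=
  {x | (∀ i, |x i| < 1) ∧ ∀ i j, G i j → |x i| + |x j| < 1}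

/-- the open body, plain coordinates -/
def Op (G : Fin n → Fin n → Prop) : Set (Fin n → ℝ) :=
  {x | (∀ i, |x i| < 1) ∧ ∀ i j, G i j → |x i| + |x j| < 1}

theorem Op_open (G : Fin n → Fin n → Prop) : IsOpen (Op G) := by
  have h : Op G = (⋂ i, {x : Fin n → ℝ | |x i| < 1}) ∩
      ⋂ i, ⋂ j, ⋂ (_ : G i j), {x : Fin n → ℝ | |x i| + |x j| < 1} := by
    ext x; simp only [Op, mem_ofPred_eq, mem_inter_iff, mem_iInter]
  rw [h]
  refine (isOpen_iInter_of_finite fun i => isOpen_lt (by fun_prop) continuous_const).inter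
    (isOpen_iInter_of_finite fun i => isOpen_iInter_of_finite fun j => ?_)
  by_cases hG : G i j
  · simp only [hG, iInter_true]
    exact isOpen_lt (by fun_prop) continuous_const
  · simp only [hG, iInter_false, isOpen_univ]

theorem Op_sub (G : Fin n → Fin n → Prop) : Op G ⊆ Kg G :=
  fun _ hx => ⟨fun i => (hx.1 i).le, fun i j hij => (hx.2 i j hij).le⟩

theorem Op_ae (G : Fin n → Fin n → Prop) : Op G =ᵐ[volume] Kg G := by
  have hK := (Kg_unc G).comp
  have hKf : volume (Kg G) ≠ ⊤ := hK.measure_lt_top.ne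
  refine ae_eq_of_subset_of_measure_ge (Op_sub G) ?_ (Op_open G).measurableSet.nullMeasurableSet hKf
  -- `r^n vol K ≤ vol Ω` for `r < 1`
  have h1 : ∀ r : ℝ, 0 < r → r < 1 → ENNReal.ofReal (r ^ n) * volume (Kg G) ≤ volume (Op G) := by
    intro r h0 h1
    have h2 : volume (r • Kg G) = ENNReal.ofReal (|r ^ n|) * volume (Kg G) := by
      have := Measure.addHaar_smul (volume : Measure (Fin n → ℝ)) r (Kg G)
      rw [Module.finrank_fin_fun] at this
      exact this
    rw [abs_of_pos (by positivity)] at h2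
    rw [← h2]
    refine measure_mono ?_
    rintro _ ⟨x, hx, rfl⟩
    refine ⟨fun i => ?_, fun i j hij => ?_⟩
    · simp only [Pi.smul_apply, smul_eq_mul, abs_mul, abs_of_pos h0]
      have := hx.1 i
      have h3 := abs_nonneg (x i)
      nlinarith
    · simp only [Pi.smul_apply, smul_eq_mul, abs_mul, abs_of_pos h0]
      have := hx.2 i j hij
      have h3 := abs_nonneg (x i)
      have h4 := abs_nonneg (x j)
      nlinarith
  have ht : Tendsto (fun r : ℝ => ENNReal.ofReal (r ^ n) * volume (Kg G)) (𝓝[<] 1)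
      (𝓝 (ENNReal.ofReal ((1 : ℝ) ^ n) * volume (Kg G))) := by
    refine ENNReal.Tendsto.mul_const ?_ (Or.inr hKf)
    refine (ENNReal.continuous_ofReal.tendsto _).comp ?_
    exact ((continuous_pow n).tendsto (1 : ℝ)).mono_left nhdsWithin_le_nhds
  rw [one_pow, ENNReal.ofReal_one, one_mul] at ht
  refine le_of_tendsto ht ?_
  have e1 : ∀ᶠ r : ℝ in 𝓝[<] 1, 0 < r :=
    (eventually_gt_nhds (zero_lt_one' ℝ)).filter_mono nhdsWithin_le_nhds
  filter_upwards [e1, self_mem_nhdsWithin] with r hr0 hr1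
  exact h1 r hr0 hr1

theorem Om_pre (G : Fin n → Fin n → Prop) : (WithLp.toLp 2 : (Fin n → ℝ) → Eu (Fin n)) ⁻¹' Om G = Op G := rfl

theorem Om_open (G : Fin n → Fin n → Prop) : IsOpen (Om G) := by
  have h : Om G = (fun x : Eu (Fin n) => fun i => x i) ⁻¹' Op G := rfl
  rw [h]
  exact (Op_open G).preimage (by fun_prop)

theorem Om_convex (G : Fin n → Fin n → Prop) : Convex ℝ (Om G) := by
  intro x hx y hy a b ha hb hab
  have key : ∀ i, |(a • x + b • y) i| ≤ a * |x i| + b * |y i| := by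
    intro i
    simp only [PiLp.add_apply, PiLp.smul_apply, smul_eq_mul]
    refine (abs_add_le _ _).trans (le_of_eq ?_)
    rw [abs_mul, abs_mul, abs_of_nonneg ha, abs_of_nonneg hb]
  have hlt : ∀ p q : ℝ, p < 1 → q < 1 → a * p + b * q < 1 := by
    intro p q hp hq
    rcases eq_or_lt_of_le ha with h0 | h0
    · have : b = 1 := by linarith
      rw [← h0, this]
      linarith
    · have h1 := mul_lt_mul_of_pos_left hp h0
      have h2 := mul_le_mul_of_nonneg_left hq.le hb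
      linarith
  refine ⟨fun i => (key i).trans_lt (hlt _ _ (hx.1 i) (hy.1 i)), fun i j hij => ?_⟩
  have h1 := add_le_add (key i) (key j)
  refine h1.trans_lt ?_
  have h2 := hlt _ _ (hx.2 i j hij) (hy.2 i j hij)
  linarith

theorem Om_bdd (G : Fin n → Fin n → Prop) : Bornology.IsBounded (Om G) := by
  refine (Metric.isBounded_closedBall (x := (0 : Eu (Fin n))) (r := Real.sqrt n)).subset
    fun x hx => ?_
  rw [mem_closedBall_zero_iff, EuclideanSpace.norm_eq]
  refine Real.sqrt_le_sqrt ?_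
  calc ∑ i, ‖x i‖ ^ 2 ≤ ∑ _i : Fin n, (1 : ℝ) := Finset.sum_le_sum fun i _ => by
        rw [Real.norm_eq_abs]
        exact pow_le_one₀ (abs_nonneg _) (hx.1 i).le
    _ = n := by simp

theorem Om_zero (G : Fin n → Fin n → Prop) : (0 : Eu (Fin n)) ∈ Om G := by
  refine ⟨fun i => ?_, fun i j _ => ?_⟩ <;> simp

theorem Om_neg (G : Fin n → Fin n → Prop) : ∀ x ∈ Om G, -x ∈ Om G := by
  intro x hx
  refine ⟨fun i => ?_, fun i j hij => ?_⟩
  · simpa using hx.1 i
  · simpa using hx.2 i j hij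

theorem EV_Om (G : Fin n → Fin n → Prop) (v : Eu (Fin n) → ℝ) :
    EV (Om G) v = (∫ x in Kg G, v (WithLp.toLp 2 x)) / (volume (Kg G)).toReal := by
  have hmp := PiLp.volume_preserving_toLp (Fin n)
  have hm : MeasurableSet (Om G) := (Om_open G).measurableSet
  unfold Pool.Agent.W695.KH.EV
  have e1 : ∫ x in Om G, v x = ∫ x in Op G, v (WithLp.toLp 2 x) := by
    rw [← Om_pre G]
    exact (hmp.setIntegral_preimage_emb
      (MeasurableEquiv.toLp 2 (Fin n → ℝ)).measurableEmbedding v (Om G)).symm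
  have e2 : volume (Om G) = volume (Op G) := by
    rw [← Om_pre G]
    exact (hmp.measure_preimage hm.nullMeasurableSet).symm
  rw [e1, e2, setIntegral_congr_set (Op_ae G), measure_congr (Op_ae G)]

theorem Kg_vol (G : Fin n → Fin n → Prop) : 0 < (volume (Kg G)).toReal := by
  have hK := (Kg_unc G).comp
  refine ENNReal.toReal_pos ?_ hK.measure_lt_top.ne
  have h1 : 0 < volume (Op G) := (Op_open G).measure_pos volume ⟨0, by
    refine ⟨fun i => ?_, fun i j _ => ?_⟩ <;> simp⟩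
  exact (h1.trans_le (measure_mono (Op_sub G))).ne'

/-- Poincare's inequality on the open body -/
theorem poi_Om (hLIFT : S_LIFT) (G : Fin n → Fin n → Prop) (v : Eu (Fin n) → ℝ)
    (hv : ContDiff ℝ 1 v) :
    VV (Om G) v ≤ 3 / 4 * EV (Om G) fun x => ‖fderiv ℝ v x‖ ^ 2 := by
  have hv' : ContDiff ℝ 1 (v ∘ Pool.Agent.R711.POBE.L n) :=
    hv.comp (Pool.Agent.R711.POBE.L n).contDiff
  have hen : ∀ x, en (v ∘ Pool.Agent.R711.POBE.L n) x = ‖fderiv ℝ v (WithLp.toLp 2 x)‖ ^ 2 :=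
    fun x => Pool.Agent.R711.POBE.sum_pd v x
  have h := hLIFT n (Kg G) (Kg_unc G) (1 / 4) (by norm_num) (poi_pos G) _ hv'
  have hV := Kg_vol G
  obtain ⟨V, hVd⟩ : ∃ V, V = (volume (Kg G)).toReal := ⟨_, rfl⟩
  rw [← hVd] at h hV
  have e1 : ∫ x in Kg G, (v ∘ Pool.Agent.R711.POBE.L n) x = ∫ x in Kg G, v (WithLp.toLp 2 x) := rfl
  have e2 : ∫ x in Kg G, (v ∘ Pool.Agent.R711.POBE.L n) x ^ 2 =
      ∫ x in Kg G, v (WithLp.toLp 2 x) ^ 2 := rfl
  simp only [hen] at h
  rw [e1, e2] at h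
  unfold Pool.Agent.W695.KH.VV
  rw [EV_Om, EV_Om, EV_Om, ← hVd]
  obtain ⟨A, hA⟩ : ∃ A, A = ∫ x in Kg G, v (WithLp.toLp 2 x) := ⟨_, rfl⟩
  obtain ⟨B, hB⟩ : ∃ B, B = ∫ x in Kg G, v (WithLp.toLp 2 x) ^ 2 := ⟨_, rfl⟩
  obtain ⟨D, hD⟩ : ∃ D, D = ∫ x in Kg G, ‖fderiv ℝ v (WithLp.toLp 2 x)‖ ^ 2 := ⟨_, rfl⟩
  rw [← hA, ← hB, ← hD] at h ⊢
  have e3 : B / V - (A / V) ^ 2 = (V * B - A ^ 2) / V ^ 2 := by
    field_simp
  have e4 : 3 / 4 * (D / V) = (V * ((1 / 4 + 1 / 2) * D)) / V ^ 2 := by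
    field_simp
    ring
  rw [e3, e4]
  exact div_le_div_of_nonneg_right h (by positivity)

/-- the hyperplane bound -/
theorem gn (hLIFT : S_LIFT) (hVAR : S_VAR) (hHYPW : S_HYPW) : ∃ C : ℝ, 0 < C ∧ ∀ (n : ℕ), 1 ≤ n →
    ∀ G : Fin n → Fin n → Prop, ∃ a : Eu (Fin n), a ≠ 0 ∧
    ∀ E : Set (Eu (Fin n)), MeasurableSet E → E ⊆ Om G → volume E = volume (Om G) / 2 →
    ∀ P : ℝ, PerLe (Om G) E P → sec (Om G) a ≤ ENNReal.ofReal (C * P) := by
  obtain ⟨C, hC, H⟩ := hHYPW
  refine ⟨C * Real.sqrt (3 / 4 / (1 / 20)), by positivity, fun n hn G => ?_⟩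
  obtain ⟨i, hi⟩ := hVAR n (Kg G) hn (Kg_unc G).comp (fun x hx => ⟨fun i => by
    have := hx i
    linarith, fun i j _ => by
    have h1 := hx i
    have h2 := hx j
    linarith⟩)
  have hV := Kg_vol G
  obtain ⟨a, ha⟩ : ∃ a : Eu (Fin n), a = EuclideanSpace.single i 1 := ⟨_, rfl⟩
  have ha1 : ‖a‖ = 1 := by rw [ha]; simp
  have hin : ∀ x : Eu (Fin n), ⟪a, x⟫_ℝ = x i := by
    intro x
    rw [ha, EuclideanSpace.inner_single_left]
    simp
  refine ⟨a, fun h0 => ?_, fun E hE hEs hEv P hP => ?_⟩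
  · rw [h0, norm_zero] at ha1
    exact zero_ne_one ha1
  refine H n hn (Om G) (Om_open G) (Om_convex G) (Om_bdd G) (Om_zero G) (Om_neg G) (3 / 4)
    (by norm_num) (fun v hv _ => poi_Om hLIFT G v hv) a ha1 (1 / 20) (by norm_num) ?_ E hE hEs hEv P hP
  simp only [hin]
  rw [EV_Om, le_div_iff₀ hV]
  have e : ∫ x in Kg G, (WithLp.toLp 2 x : Eu (Fin n)) i ^ 2 = ∫ x in Kg G, x i ^ 2 := rfl
  rw [e]
  linarith

end Pool.Agent.H756.GN
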