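import Pool.Agent.H756.SB.Stm2
import Pool.Agent.Y151.PV.Hyp

/-!
# Unit balls of graph norms: statements (project GN)

The bodies `{x | |x_i| ≤ 1, |x_i| + |x_j| ≤ 1 if G i j}`.
-/

set_option autoImplicit false

namespace Pool.Agent.H756.GN

open MeasureTheory Set Filter Topology
open scoped ENNReal InnerProductSpace
open Pool.Agent.W695.KH (Eu EV VV sec PerLe)
open Pool.Agent.R972.OP (pd)
open Pool.Agent.U959.OC (en)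

section

variable {n : ℕ}

/-- the body -/
def Kg (G : Fin n → Fin n → Prop) : Set (Fin n → ℝ) :=
  {x | (∀ i, |x i| ≤ 1) ∧ ∀ i j, G i j → |x i| + |x j| ≤ 1}

/-- unconditional compact subsets of the cube `[-1, 1]ⁿ` -/
structure Unc (K : Set (Fin n → ℝ)) : Prop where
  comp : IsCompact K
  cube : ∀ x ∈ K, ∀ i, |x i| ≤ 1
  unc : ∀ x ∈ K, ∀ y : Fin n → ℝ, (∀ i, |y i| ≤ |x i|) → y ∈ K

/-- change of one sign -/
def fl (a : Fin n) (x : Fin n → ℝ) : Fin n → ℝ := Function.update x a (-x a)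

/-- positive part -/
def pos (K : Set (Fin n → ℝ)) : Set (Fin n → ℝ) := {x | x ∈ K ∧ ∀ i, 0 ≤ x i}

end

/-- GN-FLIP: the odd part in one coordinate -/
def S_FLIP : Prop := ∀ (n : ℕ) (K : Set (Fin n → ℝ)), Unc K → ∀ (a : Fin n)
  (f : (Fin n → ℝ) → ℝ), ContDiff ℝ 1 f →
  ∫ x in K, ((f x - f (fl a x)) / 2) ^ 2 ≤ 1 / 2 * ∫ x in K, pd f a x ^ 2

/-- GN-LIFT: from the positive part to the body -/
def S_LIFT : Prop := ∀ (n : ℕ) (K : Set (Fin n → ℝ)), Unc K → ∀ C : ℝ, 0 ≤ C →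
  (∀ f : (Fin n → ℝ) → ℝ, ContDiff ℝ 1 f →
    (volume (pos K)).toReal * (∫ x in pos K, f x ^ 2) - (∫ x in pos K, f x) ^ 2 ≤
      (volume (pos K)).toReal * (C * ∫ x in pos K, en f x)) →
  ∀ f : (Fin n → ℝ) → ℝ, ContDiff ℝ 1 f →
    (volume K).toReal * (∫ x in K, f x ^ 2) - (∫ x in K, f x) ^ 2 ≤
      (volume K).toReal * ((C + 1 / 2) * ∫ x in K, en f x)

/-- GN-VAR: second moments of sets which contain a cube -/
def S_VAR : Prop := ∀ (n : ℕ) (K : Set (Fin n → ℝ)), 1 ≤ n → IsCompact K →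
  (∀ x : Fin n → ℝ, (∀ i, |x i| ≤ 1 / 2) → x ∈ K) →
  ∃ i, (volume K).toReal / 20 ≤ ∫ x in K, x i ^ 2

/-- GN-HYPW: hyperplane sections from the Poincare inequality -/
def S_HYPW : Prop := ∃ C : ℝ, 0 < C ∧ ∀ (n : ℕ), 1 ≤ n → ∀ Ω : Set (Eu (Fin n)), IsOpen Ω →
  Convex ℝ Ω → Bornology.IsBounded Ω → (0 : Eu (Fin n)) ∈ Ω → (∀ x ∈ Ω, -x ∈ Ω) →
  ∀ Cp : ℝ, 0 < Cp → (∀ v : Eu (Fin n) → ℝ, ContDiff ℝ 1 v → (∀ x, |v x| ≤ 1) →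
    VV Ω v ≤ Cp * EV Ω fun x => ‖fderiv ℝ v x‖ ^ 2) →
  ∀ a : Eu (Fin n), ‖a‖ = 1 → ∀ s : ℝ, 0 < s → s ≤ EV Ω (fun x => ⟪a, x⟫_ℝ ^ 2) →
  ∀ E : Set (Eu (Fin n)), MeasurableSet E → E ⊆ Ω → volume E = volume Ω / 2 →
  ∀ P : ℝ, PerLe Ω E P → sec Ω a ≤ ENNReal.ofReal (C * Real.sqrt (Cp / s) * P)

end Pool.Agent.H756.GN
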